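import Mathlib

namespace Pool.Agent.Lib.MP_caca3f_an

open Finset

universe u

/-- Moore's theorem for real kernels. -/
theorem kernel_embed {X : Type u} (k : X → X → ℝ) (hs : ∀ x y, k x y = k y x)
    (hpos : ∀ v : X →₀ ℝ, 0 ≤ v.sum fun x w => v.sum fun y w' => k x y * w * w') :
    ∃ (H : Type u) (_ : NormedAddCommGroup H) (_ : InnerProductSpace ℝ H) (_ : CompleteSpace H)
      (F : X → H), ∀ x y, inner ℝ (F x) (F y) = k x y := by
  set K : Matrix X X (ℝ →L[ℝ] ℝ) := Matrix.of fun x y => k x y • (1 : ℝ →L[ℝ] ℝ) with hK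
  have hH : K.IsHermitian := by
    ext x y
    simp [hK, hs y x]
  have hPS : K.PosSemidef := by
    have hiff := (RKHS.posSemidef_tfae (K := K)).out 0 2
    rw [hiff]
    refine ⟨hH, fun vv => ?_⟩
    have h := hpos vv
    have h2 : (vv.sum fun x w => vv.sum fun x' w' => inner ℝ (K x' x w) w')
        = vv.sum fun x w => vv.sum fun y w' => k x y * w * w' := by
      congr 1
      ext x w
      congr 1
      ext x' w'
      simp [hK, hs x' x]; ring
    rw [h2]
    exact h
  have : Fact K.PosSemidef := ⟨hPS⟩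
  refine ⟨RKHS.OfKernel K, inferInstance, inferInstance, inferInstance,
    fun x => RKHS.kerFun (RKHS.OfKernel K) x 1, fun x y => ?_⟩
  rw [← RKHS.kernel_inner, RKHS.OfKernel.kernel_ofKernel]
  simp [hK, hs y x]

/-- finitely supported sums as finite sums -/
theorem quad_eq {X : Type u} (k : X → X → ℝ) (v : X →₀ ℝ) :
    (v.sum fun x w => v.sum fun y w' => k x y * w * w')
      = ∑ x ∈ v.support, ∑ y ∈ v.support, k x y * v x * v y := rfl

/-- compactness for two-sided Hilbertian bounds -/
theorem hilbert_compactness {X : Type u} (d : X → X → ℝ) (C : ℝ)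
    (h : ∀ S : Finset X, ∃ (H : Type u) (_ : NormedAddCommGroup H) (_ : InnerProductSpace ℝ H)
      (F : X → H), ∀ x ∈ S, ∀ y ∈ S,
        d x y ^ 2 ≤ ‖F x - F y‖ ^ 2 ∧ ‖F x - F y‖ ^ 2 ≤ C * d x y ^ 2) :
    ∃ (H : Type u) (_ : NormedAddCommGroup H) (_ : InnerProductSpace ℝ H) (_ : CompleteSpace H)
      (F : X → H), ∀ x y,
        d x y ^ 2 ≤ ‖F x - F y‖ ^ 2 ∧ ‖F x - F y‖ ^ 2 ≤ C * d x y ^ 2 := by
  classical
  rcases isEmpty_or_nonempty X with hX | ⟨⟨x0⟩⟩
  · refine ⟨EuclideanSpace ℝ PUnit.{u+1}, inferInstance, inferInstance, inferInstance,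
      fun _ => 0, fun x => (hX.false x).elim⟩
  choose H i1 i2 F hF using h
  set b : Finset X → X → X → ℝ := fun S x y => ‖F S x - F S y‖ ^ 2 with hb
  set kS : Finset X → X → X → ℝ := fun S x y => inner ℝ (F S x - F S x0) (F S y - F S x0) with hkS
  have hkb : ∀ S x y, kS S x y = (b S x x0 + b S y x0 - b S x y) / 2 := by
    intro S x y
    have h1 := real_inner_eq_norm_mul_self_add_norm_mul_self_sub_norm_sub_mul_self_div_two
      (F S x - F S x0) (F S y - F S x0)
    simp only [hkS, hb]
    rw [h1]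
    have h2 : F S x - F S x0 - (F S y - F S x0) = F S x - F S y := by abel
    rw [h2]; ring
  set U : Ultrafilter (Finset X) := Ultrafilter.of Filter.atTop with hU
  have hUle : (U : Filter (Finset X)) ≤ Filter.atTop := Ultrafilter.of_le _
  -- limits of the squared distances
  have hlim : ∀ x y, ∃ l : ℝ, l ∈ Set.Icc (d x y ^ 2) (C * d x y ^ 2) ∧
      Filter.Tendsto (fun S => b S x y) U (nhds l) := by
    intro x y
    have hev : ∀ᶠ S in (Filter.atTop : Filter (Finset X)), b S x y ∈
        Set.Icc (d x y ^ 2) (C * d x y ^ 2) := by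
      filter_upwards [Filter.eventually_ge_atTop ({x, y} : Finset X)] with S hS
      have hx : x ∈ S := hS (by simp)
      have hy : y ∈ S := hS (by simp)
      exact hF S x hx y hy
    have hev2 := hUle hev
    have hcomp : IsCompact (Set.Icc (d x y ^ 2) (C * d x y ^ 2)) := isCompact_Icc
    have h3 : ((U.map fun S => b S x y) : Filter ℝ) ≤ Filter.principal
        (Set.Icc (d x y ^ 2) (C * d x y ^ 2)) := by
      rw [Filter.le_principal_iff]
      exact hev2
    obtain ⟨l, hl, hl2⟩ := hcomp.ultrafilter_le_nhds (U.map fun S => b S x y) h3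
    exact ⟨l, hl, hl2⟩
  choose l hlmem hlt using hlim
  set k : X → X → ℝ := fun x y => (l x x0 + l y x0 - l x y) / 2 with hk
  have hkt : ∀ x y, Filter.Tendsto (fun S => kS S x y) U (nhds (k x y)) := by
    intro x y
    have : (fun S => kS S x y) = fun S => (b S x x0 + b S y x0 - b S x y) / 2 := by
      ext S; exact hkb S x y
    rw [this]
    exact (((hlt x x0).add (hlt y x0)).sub (hlt x y)).div_const 2
  have hlsymm : ∀ x y, l x y = l y x := by
    intro x y
    have h1 : (fun S => b S x y) = fun S => b S y x := by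
      ext S; simp only [hb]; rw [norm_sub_rev]
    have h2 := hlt x y
    rw [h1] at h2
    exact tendsto_nhds_unique h2 (hlt y x)
  have hl0 : ∀ x, l x x = 0 := by
    intro x
    have h1 : (fun S => b S x x) = fun S => 0 := by
      ext S; simp [hb]
    have h2 := hlt x x
    rw [h1] at h2
    exact tendsto_nhds_unique h2 tendsto_const_nhds
  have hksymm : ∀ x y, k x y = k y x := by
    intro x y; simp only [hk]; rw [hlsymm x y]; ring
  have hkpos : ∀ v : X →₀ ℝ, 0 ≤ v.sum fun x w => v.sum fun y w' => k x y * w * w' := by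
    intro v
    rw [quad_eq]
    have h1 : Filter.Tendsto (fun S => ∑ x ∈ v.support, ∑ y ∈ v.support, kS S x y * v x * v y) U
        (nhds (∑ x ∈ v.support, ∑ y ∈ v.support, k x y * v x * v y)) := by
      apply tendsto_finsetSum; intro x _
      apply tendsto_finsetSum; intro y _
      exact ((hkt x y).mul_const _).mul_const _
    have hnn : ∀ S, 0 ≤ ∑ x ∈ v.support, ∑ y ∈ v.support, kS S x y * v x * v y := by
      intro S
      have h2 : ∑ x ∈ v.support, ∑ y ∈ v.support, kS S x y * v x * v y
          = inner ℝ (∑ x ∈ v.support, v x • (F S x - F S x0))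
              (∑ x ∈ v.support, v x • (F S x - F S x0)) := by
        rw [sum_inner]
        apply Finset.sum_congr rfl; intro x _
        rw [inner_sum]
        apply Finset.sum_congr rfl; intro y _
        rw [real_inner_smul_left, real_inner_smul_right]
        simp only [hkS]; ring
      rw [h2]
      exact real_inner_self_nonneg
    exact ge_of_tendsto' h1 hnn
  obtain ⟨H', j1, j2, j3, G, hG⟩ := kernel_embed k hksymm hkpos
  refine ⟨H', j1, j2, j3, G, fun x y => ?_⟩
  have h1 : ‖G x - G y‖ ^ 2 = l x y := by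
    rw [@norm_sub_sq_real, ← real_inner_self_eq_norm_sq, ← real_inner_self_eq_norm_sq, hG, hG, hG]
    simp only [hk]; rw [hl0, hl0]; ring
  rw [h1]
  exact hlmem x y

end Pool.Agent.Lib.MP_caca3f_an
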